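import Mathlib
import Pool.Agent.W307.AT.Main
import Pool.Agent.W307.RT.Tors

/-!
# The multiplicities of the quadratic characters in `E(F) ⊗ ℂ`

Let `F` be a finite Galois extension of `ℚ` and `χ` a homomorphism of its Galois group to `{±1}`
(a one-dimensional self-dual representation), `ℚ(√D)`, `D` squarefree, the field cut out by `χ`.
The average of `4 ^ m_χ(E)` over the elliptic curves `E` over `ℚ` with full rational 2-torsion of
height at most `H` is at most `C * 128 ^ ω(D)` for an absolute constant `C`, where `m_χ(E)` is the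
multiplicity of `χ` in `E(F) ⊗ ℂ`. The number of the curves tends to infinity with `H`.
-/

namespace Pool.Agent.Results.MP_775b3b_nt.QuadraticCharacters

open Finset Filter WeierstrassCurve

/-- the curve `y² = x³ + A x + B` over `ℚ` -/
def E (A B : ℤ) : WeierstrassCurve ℚ := ⟨0, 0, 0, (A : ℚ), (B : ℚ)⟩

open Classical in
/-- The pairs `(A, B)` of integers such that `4 A³ + 27 B² ≠ 0`, there is no prime `p` with
`p⁴ ∣ A` and `p⁶ ∣ B`, the height `max (4 |A|³) (27 B²)` is at most `H`, and `Z/2 x Z/2` embeds in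
the group of the rational points of `y² = x³ + A x + B`. (The bounds `|A|, |B| ≤ H` follow from the
bound of the height. Every elliptic curve over `ℚ` is isomorphic to `E A B` for exactly one pair
with the first two properties.) -/
noncomputable def Fam (H : ℕ) : Finset (ℤ × ℤ) :=
  ((Icc (-(H : ℤ)) H) ×ˢ (Icc (-(H : ℤ)) H)).filter (fun c : ℤ × ℤ =>
    4 * c.1 ^ 3 + 27 * c.2 ^ 2 ≠ 0 ∧ 4 * |c.1| ^ 3 ≤ H ∧ 27 * c.2 ^ 2 ≤ H ∧
    (∀ p : ℕ, p.Prime → ¬ ((p : ℤ) ^ 4 ∣ c.1 ∧ (p : ℤ) ^ 6 ∣ c.2)) ∧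
    ∃ f : ZMod 2 × ZMod 2 →+ (E c.1 c.2).toAffine.Point, Function.Injective f)

open Classical in
/-- The group of the points `P` of `W` over `F` with `σ P = χ(σ) P` for all `σ`. -/
noncomputable def Part (F : Type) [Field F] [NumberField F] (χ : (F ≃ₐ[ℚ] F) →* ℤˣ)
    (W : WeierstrassCurve ℚ) : AddSubgroup (W.baseChange F).toAffine.Point where
  carrier := {P | ∀ σ : F ≃ₐ[ℚ] F, Affine.Point.map (W' := W.toAffine) (σ : F →ₐ[ℚ] F) P =
    ((χ σ : ℤˣ) : ℤ) • P}
  zero_mem' := fun σ => by rw [map_zero, smul_zero]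
  add_mem' := fun {P Q} hP hQ σ => by rw [map_add, hP σ, hQ σ, smul_add]
  neg_mem' := fun {P} hP σ => by rw [map_neg, hP σ, smul_neg]

open Classical in
/-- The multiplicity of `χ` in `W(F) ⊗ ℂ`: the rank of `Part F χ W`. -/
noncomputable def mult (F : Type) [Field F] [NumberField F] (χ : (F ≃ₐ[ℚ] F) →* ℤˣ)
    (W : WeierstrassCurve ℚ) : ℕ :=
  Module.finrank ℤ (Part F χ W)

lemma Fam_eq (H : ℕ) : Fam H = Pool.Agent.W307.RT.Cv 2 H := by
  classical
  unfold Fam Pool.Agent.W307.RT.Cv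
  apply filter_congr
  intro c _
  have h : Pool.Agent.W307.RT.HasT 2 (Pool.Agent.W307.RT.Sh c.1 c.2) ↔
      ∃ f : ZMod 2 × ZMod 2 →+ (E c.1 c.2).toAffine.Point, Function.Injective f :=
    Pool.Agent.W307.RT.tors_iff
  rw [h]

/-- The number of these curves of height at most `H` tends to infinity. -/
theorem card_tendsto : Tendsto (fun H : ℕ => (Fam H).card) atTop atTop := by
  simp only [Fam_eq]
  exact Pool.Agent.W307.RT.tendsto_of_low Pool.Agent.W672.FK.lowf

/-- **Theorem.** There is a constant `C` such that for every finite Galois extension `F` of `ℚ` and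
every homomorphism `χ : Gal(F/ℚ) → {±1}`, there is a squarefree integer `D` such that `χ` is the
character of `ℚ(√D)` and for every `H` the sum of `4 ^ m_χ(E)` over the elliptic curves `E` over `ℚ`
with full rational 2-torsion and height at most `H` is at most `C * 128 ^ ω(D)` times their
number. -/
theorem result : ∃ C : ℝ, ∀ (F : Type) [Field F] [NumberField F] [IsGalois ℚ F]
    (χ : (F ≃ₐ[ℚ] F) →* ℤˣ), ∃ D : ℤ, Squarefree D ∧
    (∃ s : F, s ^ 2 = (D : F) ∧ ∀ σ : F ≃ₐ[ℚ] F, σ s = (((χ σ : ℤˣ) : ℤ) : F) * s) ∧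
    ∀ H : ℕ, ∑ c ∈ Fam H, (4 : ℝ) ^ mult F χ (E c.1 c.2) ≤
      C * 128 ^ D.natAbs.primeFactors.card * (Fam H).card := by
  simp only [Fam_eq]
  exact Pool.Agent.W307.AT.main

end Pool.Agent.Results.MP_775b3b_nt.QuadraticCharacters
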